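import Pool.Agent.H34.GU.Targets1

/-!
# Row MSU of the board gu: half of the mass of a cusp form is in `DY` (helper46)
-/

set_option autoImplicit false

namespace Pool.Agent.H46.GU

open MeasureTheory Pool.Agent.H34.GM Pool.Agent.H34.GZ Pool.Agent.H34.GU
open scoped ENNReal

/-- Cauchy's inequality -/
lemma cs {X : Type} [MeasurableSpace X] (μ : Measure X) {f : X → ℝ≥0∞} (hf : Measurable f) :
    (∫⁻ x, f x ∂μ) ^ 2 ≤ μ Set.univ * ∫⁻ x, f x ^ 2 ∂μ := by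
  have h := ENNReal.lintegral_mul_le_Lp_mul_Lq μ Real.HolderConjugate.two_two hf.aemeasurable
    (g := fun _ => (1 : ℝ≥0∞)) aemeasurable_const
  simp only [Pi.mul_apply, mul_one, ENNReal.one_rpow, lintegral_const, one_mul] at h
  have h2 : ∀ x, f x ^ (2 : ℝ) = f x ^ 2 := fun x => ENNReal.rpow_natCast _ 2
  simp only [h2] at h
  calc (∫⁻ x, f x ∂μ) ^ 2 ≤
      ((∫⁻ x, f x ^ 2 ∂μ) ^ (1 / 2 : ℝ) * μ Set.univ ^ (1 / 2 : ℝ)) ^ 2 :=
        pow_le_pow_left' h 2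
    _ = μ Set.univ * ∫⁻ x, f x ^ 2 ∂μ := by
        rw [mul_pow, ← ENNReal.rpow_natCast, ← ENNReal.rpow_natCast, ← ENNReal.rpow_mul,
          ← ENNReal.rpow_mul]
        norm_num
        rw [mul_comm]

lemma cR_unit {m : ℕ} {γ : ZM m} (h : IsUnit γ) : IsUnit (cR γ) := by
  have := h.map (Int.castRingHom ℝ).mapMatrix
  exact this

lemma cR_det {m : ℕ} {γ : ZM m} (h : IsUnit γ) : (cR γ).det ≠ 0 :=
  isUnit_iff_ne_zero.1 ((Matrix.isUnit_iff_isUnit_det _).1 (cR_unit h))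

open Classical in
/-- the value, zero on singular matrices -/
noncomputable def fz {m q : ℕ} (F : Mat m → VN m q → ℂ) (x : VN m q) (z : V m) : ℂ :=
  if (mt z).det = 0 then 0 else F (mt z) x

/-- the density of the mass -/
noncomputable def wd {m q : ℕ} [NeZero q] (F : Mat m → VN m q → ℂ) (z : V m) : ℝ≥0∞ :=
  ∑ x : VN m q, ENNReal.ofReal ‖fz F x z‖ ^ 2

lemma fz_eq {m q : ℕ} (F : Mat m → VN m q → ℂ) (x : VN m q) {z : V m} (h : (mt z).det ≠ 0) :
    fz F x z = F (mt z) x := if_neg h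

lemma fz_meas (hMSR : T_MSR) {m q : ℕ} {F : Mat m → VN m q → ℂ}
    (hc : ∀ x, ContinuousOn (fun g => F g x) {g | g.det ≠ 0}) (x : VN m q) :
    Measurable (fz F x) := by
  classical
  have hd : Measurable (fun z : V m => (mt z).det) := (hMSR.1 m).2.1
  have hS : MeasurableSet {z : V m | (mt z).det ≠ 0} := hd (measurableSet_singleton 0).compl
  have h1 : ContinuousOn (fun z : V m => F (mt z) x) {z : V m | (mt z).det ≠ 0} :=
    (hc x).comp (show Continuous (fun z : V m => mt z) from continuous_id).continuousOn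
      fun z hz => hz
  have h2 := h1.measurable_piecewise (g := fun _ : V m => (0 : ℂ)) continuousOn_const hS
  have h3 : fz F x = {z : V m | (mt z).det ≠ 0}.piecewise (fun z => F (mt z) x) fun _ => 0 := by
    funext z
    unfold fz
    by_cases h : (mt z).det = 0
    · rw [if_pos h, Set.piecewise_eq_of_notMem _ _ _ (by simpa using h)]
    · rw [if_neg h, Set.piecewise_eq_of_mem _ _ _ (by simpa using h)]
  rw [h3]
  exact h2

lemma fn_meas (hMSR : T_MSR) {m q : ℕ} {F : Mat m → VN m q → ℂ}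
    (hc : ∀ x, ContinuousOn (fun g => F g x) {g | g.det ≠ 0}) (x : VN m q) :
    Measurable (fun z => ENNReal.ofReal ‖fz F x z‖) :=
  ENNReal.measurable_ofReal.comp (fz_meas hMSR hc x).norm

lemma wd_meas (hMSR : T_MSR) {m q : ℕ} [NeZero q] {F : Mat m → VN m q → ℂ}
    (hc : ∀ x, ContinuousOn (fun g => F g x) {g | g.det ≠ 0}) : Measurable (wd F) := by
  unfold wd
  exact Finset.measurable_sum _ fun x _ => (fn_meas hMSR hc x).pow_const 2

lemma prod_meas (hMSR : T_MSR) (m : ℕ) :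
    Measurable (fun p : V m × V m => ((fun i j => (mt p.1 * (mt p.2)⁻¹) i j) : V m)) := by
  refine measurable_pi_lambda _ fun i => measurable_pi_lambda _ fun j => ?_
  have h1 : ∀ p : V m × V m, (mt p.1 * (mt p.2)⁻¹) i j = ∑ k, p.1 i k * ((mt p.2)⁻¹) k j :=
    fun p => Matrix.mul_apply
  simp only [h1]
  refine Finset.measurable_sum _ fun k _ => Measurable.mul ?_ ?_
  · exact (measurable_pi_apply k).comp ((measurable_pi_apply i).comp measurable_fst)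
  · have h2 := (hMSR.1 m).1
    exact (measurable_pi_apply j).comp ((measurable_pi_apply k).comp (h2.comp measurable_snd))

lemma dom_det {m : ℕ} (hm : 1 ≤ m) {D : Set (V m)} (hD : DomZ m D) {z : V m} (hz : z ∈ D) :
    (mt z).det ≠ 0 := by
  intro h
  have h1 := (hD.shell z hz).1
  unfold aN at h1
  have hm0 : (0 : ℝ) < m := by exact_mod_cast hm
  rw [h, abs_zero, Real.zero_rpow (by positivity)] at h1
  linarith

/-- the density is invariant -/
lemma wd_inv {m q : ℕ} [NeZero q] {T : ℕ → Finset (ZM m)} {F : Mat m → VN m q → ℂ}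
    {lam : ℕ → ℂ} {mu : Fin m → ℂ} (hF : CuspU m q T F lam mu) {γ : ZM m} (hγ : IsUnit γ)
    (hbij : Function.Bijective (ac q γ : VN m q → VN m q))
    {z : V m} (hz : (mt z).det ≠ 0) :
    wd F (fun i j => (cR γ * mt z) i j) = wd F z := by
  have hd : (mt (fun i j => (cR γ * mt z) i j) : Mat m).det ≠ 0 := by
    show (cR γ * mt z).det ≠ 0
    rw [Matrix.det_mul]
    exact mul_ne_zero (cR_det hγ) hz
  unfold wd
  rw [← Equiv.sum_comp (Equiv.ofBijective _ hbij) fun y =>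
    ENNReal.ofReal ‖fz F y (fun i j => (cR γ * mt z) i j)‖ ^ 2]
  refine Finset.sum_congr rfl fun x _ => ?_
  rw [fz_eq F _ hd, fz_eq F _ hz]
  have h1 : F (mt (fun i j => (cR γ * mt z) i j)) (Equiv.ofBijective _ hbij x) =
      F (mt z) x := by
    have := hF.auto γ hγ (mt z) x hz
    exact this
  rw [h1]

lemma wd_scal {m q : ℕ} [NeZero q] {T : ℕ → Finset (ZM m)} {F : Mat m → VN m q → ℂ}
    {lam : ℕ → ℂ} {mu : Fin m → ℂ} (hF : CuspU m q T F lam mu) {c : ℝ} (hc : 0 < c)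
    {z : V m} (hz : (mt z).det ≠ 0) : wd F (c • z) = wd F z := by
  have h0 : (mt (c • z) : Mat m) = c • mt z := rfl
  have hd : (mt (c • z)).det ≠ 0 := by
    rw [h0, Matrix.det_smul]
    exact mul_ne_zero (pow_ne_zero _ hc.ne') hz
  unfold wd
  refine Finset.sum_congr rfl fun x _ => ?_
  rw [fz_eq F _ hd, fz_eq F _ hz, h0, hF.scal c hc (mt z) x hz]

lemma zc_det {m : ℕ} {C : ℝ} (hC : 0 < C) {v : V m} (hv : v ∈ Zc m C) : (mt v).det ≠ 0 := by
  intro h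
  have h1 := hv.2
  rw [h, abs_zero] at h1
  have : 0 < C⁻¹ := by positivity
  linarith

lemma zc_meas (hMSR : T_MSR) (m : ℕ) (C : ℝ) : MeasurableSet (Zc m C) := by
  have h1 := (hMSR.1 m).2.1
  have h2 := (hMSR.1 m).2.2.2.1
  exact (measurableSet_le h2 measurable_const).inter (measurableSet_le measurable_const h1.norm)

/-- the pointwise bound where a gap is large -/
lemma point {m q : ℕ} [NeZero q] (hMSR : T_MSR) {T : ℕ → Finset (ZM m)}
    {F : Mat m → VN m q → ℂ} {lam : ℕ → ℂ} {mu : Fin m → ℂ} (hF : CuspU m q T F lam mu)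
    {C κ Y : ℝ} (hC : 0 < C) (hqY : (q : ℝ) ≤ Y) (hκ0 : 0 ≤ κ)
    (hO : ∀ (b n : Mat m) (a : Fin m → ℝ) (k : Mat m), Sgl b n a k →
      ∀ i j : Fin m, (i : ℕ) + 1 = j → (q : ℝ) * a i ≤ a j → ∀ x : VN m q,
      ENNReal.ofReal ‖F b x‖ ≤ ENNReal.ofReal (κ * Y * (a i / a j)) *
        ∫⁻ z in Zc m C, ENNReal.ofReal ‖F (b * (mt z)⁻¹) x‖ ∂(hm m))
    {D : Set (V m)} {z : V m} (hzD : z ∈ D) (hz : (mt z).det ≠ 0) (hzY : z ∉ DY D Y) :
    wd F z ≤ ENNReal.ofReal κ ^ 2 * hm m (Zc m C) *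
      ∫⁻ v in Zc m C, wd F (fun i j => (mt z * (mt v)⁻¹) i j) ∂(hm m) := by
  have h1 : ∃ γ : ZM m, IsUnit γ ∧ ∃ (n : Mat m) (a : Fin m → ℝ) (k : Mat m),
      Sgl (cR γ * mt z) n a k ∧ ∃ i j : Fin m, (i : ℕ) + 1 = j ∧ Y * a i < a j := by
    by_contra hcon
    apply hzY
    refine ⟨hzD, fun γ hγ n a k hs i j hij => ?_⟩
    by_contra hlt
    exact hcon ⟨γ, hγ, n, a, k, hs, i, j, hij, not_le.1 hlt⟩
  obtain ⟨γ, hγ, n, a, k, hs, i, j, hij, hlt⟩ := h1
  have hai := hs.pos i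
  have haj := hs.pos j
  have hqa : (q : ℝ) * a i ≤ a j := (mul_le_mul_of_nonneg_right hqY hai.le).trans hlt.le
  have hκ : κ * Y * (a i / a j) ≤ κ := by
    have : Y * (a i / a j) ≤ 1 := by
      rw [← mul_div_assoc, div_le_one haj]
      exact hlt.le
    calc κ * Y * (a i / a j) = κ * (Y * (a i / a j)) := by ring
      _ ≤ κ * 1 := mul_le_mul_of_nonneg_left this hκ0
      _ = κ := mul_one κ
  have hb : ∀ x : VN m q, ENNReal.ofReal ‖fz F x z‖ ≤ ENNReal.ofReal κ *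
      ∫⁻ v in Zc m C, ENNReal.ofReal ‖fz F x (fun i j => (mt z * (mt v)⁻¹) i j)‖ ∂(hm m) := by
    intro x
    have h2 := hO _ n a k hs i j hij hqa (ac q γ x)
    rw [hF.auto γ hγ (mt z) x hz] at h2
    rw [fz_eq F x hz]
    refine h2.trans (mul_le_mul' (ENNReal.ofReal_le_ofReal hκ) (le_of_eq ?_))
    refine setLIntegral_congr_fun (zc_meas hMSR m C) fun v hv => ?_
    have hv0 := zc_det hC hv
    have hd : (mt z * (mt v)⁻¹).det ≠ 0 := by
      rw [Matrix.det_mul]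
      refine mul_ne_zero hz ?_
      rw [Matrix.det_nonsing_inv, Ring.inverse_eq_inv']
      exact inv_ne_zero hv0
    have h3 : fz F x (fun i j => (mt z * (mt v)⁻¹) i j) = F (mt z * (mt v)⁻¹) x :=
      fz_eq F x (z := fun i j => (mt z * (mt v)⁻¹) i j) hd
    rw [h3, Matrix.mul_assoc, hF.auto γ hγ (mt z * (mt v)⁻¹) x hd]
  have hmz : ∀ x : VN m q, Measurable fun v : V m =>
      ENNReal.ofReal ‖fz F x (fun i j => (mt z * (mt v)⁻¹) i j)‖ := fun x =>
    (fn_meas hMSR hF.cont x).comp ((prod_meas hMSR m).comp (measurable_const.prodMk measurable_id))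
  calc wd F z = ∑ x : VN m q, ENNReal.ofReal ‖fz F x z‖ ^ 2 := rfl
    _ ≤ ∑ x : VN m q, ENNReal.ofReal κ ^ 2 * hm m (Zc m C) *
        ∫⁻ v in Zc m C, ENNReal.ofReal ‖fz F x (fun i j => (mt z * (mt v)⁻¹) i j)‖ ^ 2
          ∂(hm m) := by
        refine Finset.sum_le_sum fun x _ => ?_
        calc ENNReal.ofReal ‖fz F x z‖ ^ 2 ≤ (ENNReal.ofReal κ * ∫⁻ v in Zc m C,
              ENNReal.ofReal ‖fz F x (fun i j => (mt z * (mt v)⁻¹) i j)‖ ∂(hm m)) ^ 2 :=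
              pow_le_pow_left' (hb x) 2
          _ = ENNReal.ofReal κ ^ 2 * (∫⁻ v in Zc m C,
              ENNReal.ofReal ‖fz F x (fun i j => (mt z * (mt v)⁻¹) i j)‖ ∂(hm m)) ^ 2 :=
              mul_pow _ _ _
          _ ≤ ENNReal.ofReal κ ^ 2 * (hm m (Zc m C) * ∫⁻ v in Zc m C,
              ENNReal.ofReal ‖fz F x (fun i j => (mt z * (mt v)⁻¹) i j)‖ ^ 2 ∂(hm m)) := by
              refine mul_le_mul' le_rfl ?_
              have := cs ((hm m).restrict (Zc m C)) (hmz x)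
              rwa [Measure.restrict_apply_univ] at this
          _ = _ := by rw [mul_assoc]
    _ = ENNReal.ofReal κ ^ 2 * hm m (Zc m C) * ∑ x : VN m q,
        ∫⁻ v in Zc m C, ENNReal.ofReal ‖fz F x (fun i j => (mt z * (mt v)⁻¹) i j)‖ ^ 2
          ∂(hm m) := by rw [Finset.mul_sum]
    _ = _ := by
        congr 1
        unfold wd
        rw [lintegral_finsetSum _ fun x _ => (hmz x).pow_const 2]

/-- the mass outside `DY` -/
lemma mass {m q : ℕ} [NeZero q] (hMSR : T_MSR) (hRTI : T_RTI) (hm1 : 1 ≤ m)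
    (hbij : ∀ γ : ZM m, IsUnit γ → Function.Bijective (ac q γ : VN m q → VN m q))
    {T : ℕ → Finset (ZM m)} {F : Mat m → VN m q → ℂ} {lam : ℕ → ℂ} {mu : Fin m → ℂ}
    (hF : CuspU m q T F lam mu) {C κ Y : ℝ} (hC : 0 < C) (hqY : (q : ℝ) ≤ Y) (hκ0 : 0 ≤ κ)
    (hO : ∀ (b n : Mat m) (a : Fin m → ℝ) (k : Mat m), Sgl b n a k →
      ∀ i j : Fin m, (i : ℕ) + 1 = j → (q : ℝ) * a i ≤ a j → ∀ x : VN m q,
      ENNReal.ofReal ‖F b x‖ ≤ ENNReal.ofReal (κ * Y * (a i / a j)) *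
        ∫⁻ z in Zc m C, ENNReal.ofReal ‖F (b * (mt z)⁻¹) x‖ ∂(hm m))
    {D : Set (V m)} (hD : DomZ m D) (hDY : MeasurableSet (DY D Y)) :
    ∫⁻ z in D \ DY D Y, wd F z ∂(hm m) ≤
      (ENNReal.ofReal κ * hm m (Zc m C)) ^ 2 * ∫⁻ z in D, wd F z ∂(hm m) := by
  have : SigmaFinite (hm m) := (hMSR.1 m).2.2.2.2.1
  have hw := wd_meas hMSR (F := F) hF.cont
  have hw2 : Measurable (Function.uncurry fun (z v : V m) =>
      wd F (fun i j => (mt z * (mt v)⁻¹) i j)) := hw.comp (prod_meas hMSR m)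
  have hZ := zc_meas hMSR m C
  calc ∫⁻ z in D \ DY D Y, wd F z ∂(hm m) ≤
      ∫⁻ z in D \ DY D Y, ENNReal.ofReal κ ^ 2 * hm m (Zc m C) *
        ∫⁻ v in Zc m C, wd F (fun i j => (mt z * (mt v)⁻¹) i j) ∂(hm m) ∂(hm m) := by
        refine setLIntegral_mono' (hD.meas.diff hDY) fun z hz => ?_
        exact point hMSR hF hC hqY hκ0 hO hz.1 (dom_det hm1 hD hz.1) hz.2
    _ ≤ ∫⁻ z in D, ENNReal.ofReal κ ^ 2 * hm m (Zc m C) *
        ∫⁻ v in Zc m C, wd F (fun i j => (mt z * (mt v)⁻¹) i j) ∂(hm m) ∂(hm m) :=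
        lintegral_mono_set Set.sdiff_subset
    _ = ENNReal.ofReal κ ^ 2 * hm m (Zc m C) * ∫⁻ z in D,
        ∫⁻ v in Zc m C, wd F (fun i j => (mt z * (mt v)⁻¹) i j) ∂(hm m) ∂(hm m) :=
        lintegral_const_mul _ hw2.lintegral_prod_right'
    _ = ENNReal.ofReal κ ^ 2 * hm m (Zc m C) * ∫⁻ v in Zc m C,
        ∫⁻ z in D, wd F (fun i j => (mt z * (mt v)⁻¹) i j) ∂(hm m) ∂(hm m) := by
        rw [lintegral_lintegral_swap hw2.aemeasurable]
    _ = ENNReal.ofReal κ ^ 2 * hm m (Zc m C) * ∫⁻ v in Zc m C,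
        ∫⁻ z in D, wd F z ∂(hm m) ∂(hm m) := by
        congr 1
        refine setLIntegral_congr_fun hZ fun v hv => ?_
        refine hRTI m hm1 D hD (wd F) hw (fun γ hγ z hz => wd_inv hF hγ (hbij γ hγ) hz)
          (fun c hc z hz => wd_scal hF hc hz) (mt v)⁻¹ ?_
        rw [Matrix.det_nonsing_inv, Ring.inverse_eq_inv']
        exact inv_ne_zero (zc_det hC hv)
    _ = _ := by
        rw [setLIntegral_const]
        ring

theorem pf_MSU (hHAR : T_HAR) (hMSR : T_MSR) (hOSU : T_OSU) (hRTI : T_RTI) (hDYM : T_DYM)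
    (hALU : T_ALU) : T_MSU := by
  intro m χ hm1 hχ
  obtain ⟨c, C, A, hc, hC, hO⟩ := hOSU m χ hm1 hχ
  have hC0 : 0 < C := by linarith
  have hZ : hm m (Zc m C) < ⊤ := (hHAR m hm1).2.2.2 C hC0
  set Z : ℝ := (hm m (Zc m C)).toReal with hZd
  have hZ0 : 0 ≤ Z := ENNReal.toReal_nonneg
  have hZe : hm m (Zc m C) = ENNReal.ofReal Z := (ENNReal.ofReal_toReal hZ.ne).symm
  refine ⟨c, C * (1 + 2 * Z), A, hc, ?_, ?_⟩
  · nlinarith
  intro q _ T D hS F lam mu hF hmass δ hδ hδ2 hδc Y hY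
  have hδA : 1 ≤ δ⁻¹ ^ A := by
    apply one_le_pow₀
    rw [one_le_inv₀ hδ]
    linarith
  have hq2 : (2 : ℝ) ≤ q := by exact_mod_cast hS.two_le
  have hq0 : (0 : ℝ) < q := by linarith
  have hB : (q : ℝ) ≤ C * q * δ⁻¹ ^ A := by
    calc (q : ℝ) = 1 * q * 1 := by ring
      _ ≤ C * q * δ⁻¹ ^ A := by gcongr
  have hY2 : C * q * δ⁻¹ ^ A * (1 + 2 * Z) ≤ Y := by
    calc C * q * δ⁻¹ ^ A * (1 + 2 * Z) = C * (1 + 2 * Z) * q * δ⁻¹ ^ A := by ring
      _ ≤ Y := hY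
  have hqY : (q : ℝ) ≤ Y := by
    have h1 : 0 < C * q * δ⁻¹ ^ A := by positivity
    have h2 : C * q * δ⁻¹ ^ A * 1 ≤ C * q * δ⁻¹ ^ A * (1 + 2 * Z) :=
      mul_le_mul_of_nonneg_left (by linarith) h1.le
    linarith
  have hY0 : 0 < Y := by linarith
  set κ : ℝ := C * δ⁻¹ ^ A * q / Y with hκ
  have hκ0 : 0 ≤ κ := by positivity
  have hκY : κ * Y = C * δ⁻¹ ^ A * q := by rw [hκ]; field_simp
  have hκZ : κ * Z ≤ 1 / 2 := by
    rw [hκ, div_mul_eq_mul_div, div_le_iff₀ hY0]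
    have h1 : 0 ≤ C * q * δ⁻¹ ^ A := by positivity
    linarith
  have hm2 := mass hMSR hRTI hm1 (hALU m q hm1 hS.two_le).2.2.2.2.2 hF (κ := κ) (Y := Y) hC0 hqY hκ0
    (fun b n a k hs i j hij hqa x => by
      have h1 := hO q T F lam mu hS.two_le hF δ hδ hδ2 hδc b n a k hs i j hij hqa x
      have h2 : κ * Y * (a i / a j) = C * δ⁻¹ ^ A * (q * a i / a j) := by
        rw [hκY]
        ring
      rw [h2]
      exact h1) hS.dom (hDYM m D hS.dom Y)
  -- the total mass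
  have hwd : ∀ z : V m, (mt z).det ≠ 0 →
      wd F z = ∑ x : VN m q, ENNReal.ofReal (‖F (mt z) x‖ ^ 2) := by
    intro z hz
    unfold wd
    refine Finset.sum_congr rfl fun x _ => ?_
    rw [fz_eq F x hz, ENNReal.ofReal_pow (norm_nonneg _)]
  have hsum : ∀ S : Set (V m), MeasurableSet S → S ⊆ D →
      ∫⁻ z in S, wd F z ∂(hm m) =
        ∑ x : VN m q, ∫⁻ z in S, ENNReal.ofReal (‖F (mt z) x‖ ^ 2) ∂(hm m) := by
    intro S hSm hSD
    unfold wd
    rw [lintegral_finsetSum _ fun x _ => (fn_meas hMSR hF.cont x).pow_const 2]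
    refine Finset.sum_congr rfl fun x _ => ?_
    refine setLIntegral_congr_fun hSm fun z hz => ?_
    rw [fz_eq F x (dom_det hm1 hS.dom (hSD hz)), ENNReal.ofReal_pow (norm_nonneg _)]
  have hDYs : DY D Y ⊆ D := fun z hz => hz.1
  have hDYm := hDYM m D hS.dom Y
  rw [← hsum _ hDYm hDYs]
  have htot : ∫⁻ z in D, wd F z ∂(hm m) = 1 := by
    rw [hsum D hS.dom.meas subset_rfl]
    exact hmass
  have hsplit : ∫⁻ z in DY D Y, wd F z ∂(hm m) + ∫⁻ z in D \ DY D Y, wd F z ∂(hm m) = 1 := by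
    rw [← htot, ← lintegral_inter_add_sdiff (wd F) D hDYm, Set.inter_eq_self_of_subset_right hDYs]
  have hrest : ∫⁻ z in D \ DY D Y, wd F z ∂(hm m) ≤ ENNReal.ofReal (1 / 4) := by
    refine hm2.trans ?_
    rw [htot, mul_one, hZe, ← ENNReal.ofReal_mul hκ0, ← ENNReal.ofReal_pow (by positivity)]
    apply ENNReal.ofReal_le_ofReal
    have h1 : 0 ≤ κ * Z := by positivity
    calc (κ * Z) ^ 2 ≤ (1 / 2) ^ 2 := pow_le_pow_left₀ h1 hκZ 2
      _ = 1 / 4 := by norm_num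
  by_contra hcon
  rw [not_le] at hcon
  have h3 : (1 : ℝ≥0∞) / 2 = ENNReal.ofReal (1 / 2) := by
    rw [ENNReal.ofReal_div_of_pos (by norm_num)]
    simp
  rw [h3] at hcon
  have h4 : ∫⁻ z in DY D Y, wd F z ∂(hm m) + ∫⁻ z in D \ DY D Y, wd F z ∂(hm m) ≤
      ENNReal.ofReal (1 / 2) + ENNReal.ofReal (1 / 4) := add_le_add hcon.le hrest
  rw [hsplit, ← ENNReal.ofReal_add (by norm_num) (by norm_num)] at h4
  have h5 : ENNReal.ofReal (1 / 2 + 1 / 4) < ENNReal.ofReal 1 :=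
    (ENNReal.ofReal_lt_ofReal_iff (by norm_num)).2 (by norm_num)
  rw [ENNReal.ofReal_one] at h5
  exact absurd h4 (not_le.2 h5)

end Pool.Agent.H46.GU
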