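import Pool.Agent.H34.GU.Targets1

/-!
# Row ENT of the board gu: the L-function of a cusp form is entire (helper46)
-/

set_option autoImplicit false

namespace Pool.Agent.H46.GU

open MeasureTheory Pool.Agent.H34.GM Pool.Agent.H34.GZ Pool.Agent.H34.GU

lemma ent_det {m : ℕ} (hm1 : 1 ≤ m) {z : V m} (h : 1 ≤ aN (mt z)) : (mt z).det ≠ 0 := by
  intro h0
  unfold aN at h
  rw [h0, abs_zero, Real.zero_rpow (by positivity)] at h
  linarith

lemma ent_nz {m N : ℕ} [NeZero N] (hm1 : 1 ≤ m) {D : Set (V m)} (hD : DomZ m D)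
    (F : Mat m → VN m N → ℂ) (hF : nU D F ≠ 0) : NZ F := by
  by_contra hn
  apply hF
  have hz : ∀ g x, g.det ≠ 0 → F g x = 0 := by
    intro g x hg
    by_contra h
    exact hn ⟨g, x, hg, h⟩
  unfold nU
  refine Finset.sum_eq_zero (fun x _ => ?_)
  rw [← integral_zero (V m) ℝ (μ := (hm m).restrict D)]
  refine setIntegral_congr_fun hD.meas (fun z hz' => ?_)
  have := hz (mt z) x (ent_det hm1 (hD.shell z hz').1)
  simp [this]

/-- uniqueness of the continuation -/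
lemma isL_unique {m q : ℕ} {lam : ℕ → ℂ} {L L' : ℂ → ℂ} (h : IsL m q lam L)
    (h' : IsL m q lam L') : L' = L := by
  have hA : AnalyticOnNhd ℂ L Set.univ := fun z _ =>
    (h.1.differentiableOn.analyticOnNhd isOpen_univ) z (Set.mem_univ z)
  have hA' : AnalyticOnNhd ℂ L' Set.univ := fun z _ =>
    (h'.1.differentiableOn.analyticOnNhd isOpen_univ) z (Set.mem_univ z)
  have hs : (m : ℝ) + 2 < (((m : ℝ) + 3 : ℝ) : ℂ).re := by
    rw [Complex.ofReal_re]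
    linarith
  have ho : IsOpen {s : ℂ | (m : ℝ) + 2 < s.re} := isOpen_lt continuous_const Complex.continuous_re
  have he : L' =ᶠ[nhds (((m : ℝ) + 3 : ℝ) : ℂ)] L := by
    filter_upwards [ho.mem_nhds hs] with s hs
    exact (h'.2 s hs).unique (h.2 s hs)
  exact hA'.eq_of_eventuallyEq hA he

theorem pf_ENT (hPRF : T_PRF) (hBMP : T_BMP) (hLMU : T_LMU) (hGLZ : T_GLZ) (hSMU : T_SMU) :
    T_ENT := by
  obtain ⟨χ, hχ⟩ := hPRF
  intro m N _ T D hSys F lam mu hF hn0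
  have hm1 := hSys.one_le
  have hnz : NZ F := ent_nz hm1 hSys.dom F hn0
  have hbump : ∀ δ : ℝ, 0 < δ → δ ≤ 1 / 2 → TstS m (bump m χ δ) := by
    intro δ h0 h1
    obtain ⟨h, -⟩ := hBMP m χ hm1 hχ
    obtain ⟨ht, hs, hcs, -, -⟩ := h δ h0 h1
    exact { toTst := ht, smooth := hs, comp := hcs }
  obtain ⟨CL, -, hCL⟩ := hLMU m N T D hSys F lam mu hF.toEigU hnz
  obtain ⟨L, hL, hL'⟩ := hGLZ m 1 lam mu hm1 hF.tr0 ⟨CL, fun n hn _ => hCL n hn⟩ χ hχ (by
    intro δ h0 h1 N0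
    obtain ⟨C, -, h⟩ := hSMU m N T D hSys F lam mu hF hn0 (bump m χ δ) (hbump δ h0 h1) N0
    exact ⟨C, h⟩)
  refine ⟨L, hL, ?_⟩
  intro L' hLL Φ hΦ s
  rw [isL_unique hL hLL]
  refine hL' Φ hΦ.toTst ?_ s
  intro N0
  obtain ⟨C, -, h⟩ := hSMU m N T D hSys F lam mu hF hn0 Φ hΦ N0
  exact ⟨C, h⟩

end Pool.Agent.H46.GU
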